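import Pool.Agent.Q100.Cap

/-!
# Upper continuous vector capacities have control functionals

The definitions are in `Pool/Agent/Q100/CapDefs.lean` (vector capacities, upper continuity,
absolute continuity, order continuous norms) and `Pool/Agent/Q100/BL.lean` (Banach lattices).
-/

set_option autoImplicit false

namespace Pool.Agent.Results.MP_e24518_an.ControlFunctional

open Q100.BL Q100.Cap

universe u v

/-- Let `E` be a Banach lattice with order continuous norm and let `μ` be an upper continuous
vector capacity on a `σ`-algebra with values in `E`. Then there is a positive functional `g` on `E`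
such that `g ∘ μ` is a capacity and `μ ≪ g ∘ μ`. -/
theorem result : ∀ (Ω : Type v) [MeasurableSpace Ω] (E : Type u) [NormedAddCommGroup E]
    [NormedSpace ℝ E] [Lattice E] [IsBanachLattice E], OrderContinuousNorm E →
    ∀ μ : Set Ω → E, IsCapacity μ → UpperContinuous μ →
      ∃ g : E →L[ℝ] ℝ, (∀ x : E, 0 ≤ x → 0 ≤ g x) ∧ IsCapacity (fun A => g (μ A)) ∧
        AbsCont μ (fun A => g (μ A)) := by
  intro Ω _ E _ _ _ _ hE μ hμ hc
  obtain ⟨g, hg, hac⟩ := exists_control hE hμ hc
  refine ⟨g, hg, ⟨?_, ?_⟩, hac⟩
  · simp only [hμ.empty, map_zero]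
  · intro A B hA hB hAB
    have h1 : 0 ≤ μ B - μ A := sub_nonneg.2 (hμ.mono A B hA hB hAB)
    have h2 := hg _ h1
    rw [map_sub] at h2
    simpa using h2

end Pool.Agent.Results.MP_e24518_an.ControlFunctional
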